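import Mathlib
import Pool.Agent.Lib.Helper43.PetersenCert

/-!
# Equality testing on the Petersen graph costs `(5 + o(1)) n` bits

This refutes `f(G) = c₂(G) / 2`: for the Petersen graph `P` one has `f(P) = 5` and `c₂(P) = 11`.
-/

open Filter Topology

namespace Pool.Agent.Results.MP_01a55a_lc.PetersenFive

/-- A deterministic communication protocol on the graph `G`, whose players sit at the vertices of `G`
and hold one input from `I` each. In the protocol `cost` bits are transmitted, one after the other: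
the `t`-th bit goes from `src t` to its neighbour `dst t`. The value of the `t`-th bit is
`bit t i τ`, where `i` is the input of the sender and `τ` is the sequence of all transmitted bits;
`bit_local` says that it depends only on `i` and on the bits that the sender has received before time
`t`. In the end each player `v` announces `out v i τ`, which depends only on her input `i` and on the
bits she has received. -/
structure Protocol {V : Type*} (G : SimpleGraph V) (I : Type*) where
  /-- the total number of transmitted bits -/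
  cost : ℕ
  /-- the sender of the `t`-th bit -/
  src : Fin cost → V
  /-- the receiver of the `t`-th bit -/
  dst : Fin cost → V
  /-- bits are sent only to neighbours -/
  adj : ∀ t, G.Adj (src t) (dst t)
  /-- the `t`-th bit, as computed by its sender -/
  bit : Fin cost → I → (Fin cost → Bool) → Bool
  /-- the sender only knows her input and the bits she has received so far -/
  bit_local : ∀ t i τ τ', (∀ s, s < t → dst s = src t → τ s = τ' s) → bit t i τ = bit t i τ'
  /-- the final answer of each player -/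
  out : V → I → (Fin cost → Bool) → Bool
  /-- the final answer of a player depends only on her input and the bits she has received -/
  out_local : ∀ v i τ τ', (∀ s, dst s = v → τ s = τ' s) → out v i τ = out v i τ'

/-- `τ` is the sequence of bits transmitted when the player at each vertex `v` holds `x v`. (By
`bit_local`, there is exactly one such sequence for each `x`.) -/
def Protocol.IsTranscript {V I : Type*} {G : SimpleGraph V} (P : Protocol G I) (x : V → I)
    (τ : Fin P.cost → Bool) : Prop :=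
  ∀ t, τ t = P.bit t (x (P.src t)) τ

/-- The protocol tests equality: on each input vector `x`, every player ends with the correct answer
to the question whether all the inputs are equal. -/
def Protocol.TestsEquality {V I : Type*} {G : SimpleGraph V} (P : Protocol G I) : Prop :=
  ∀ (x : V → I) (τ : Fin P.cost → Bool), P.IsTranscript x τ →
    ∀ v, (P.out v (x v) τ = true ↔ ∀ u w, x u = x w)

/-- `f(n, G)`: the minimum number of bits transmitted in a protocol on `G` that tests equality of
`n`-bit strings. -/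
noncomputable def eqCost {V : Type*} (G : SimpleGraph V) (n : ℕ) : ℕ :=
  sInf {c | ∃ P : Protocol G (Fin n → Bool), P.TestsEquality ∧ P.cost = c}

/-- `m` is the multiplicity function of a `2`-edge-connected spanning subgraph of `G`, which may use
an edge of `G` twice: it is supported on the edges of `G`, its values are at most `2`, and each cut
`(S, Sᶜ)` into two nonempty parts contains at least two edges, counted with multiplicity. -/
structure IsTwoEdgeConnectedSpanning {V : Type*} [Fintype V] [DecidableEq V] (G : SimpleGraph V)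
    (m : Sym2 V → ℕ) : Prop where
  supp : ∀ e, m e ≠ 0 → e ∈ G.edgeSet
  le_two : ∀ e, m e ≤ 2
  cut : ∀ S : Finset V, S.Nonempty → Sᶜ.Nonempty → 2 ≤ ∑ u ∈ S, ∑ v ∈ Sᶜ, m s(u, v)

/-- `c₂(G)`: the minimum number of edges (counted with multiplicity) of a `2`-edge-connected spanning
subgraph of `G`, which may use an edge of `G` twice. -/
noncomputable def c2 {V : Type*} [Fintype V] [DecidableEq V] (G : SimpleGraph V) : ℕ :=
  sInf {c | ∃ m : Sym2 V → ℕ, IsTwoEdgeConnectedSpanning G m ∧ ∑ e, m e = c}

/-- The edges of the Petersen graph: an outer pentagon `0 1 2 3 4`, an inner pentagram `5 7 9 6 8` and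
the five spokes `i (i+5)`. -/
def petersenEdges : List (Fin 10 × Fin 10) :=
  [(0, 1), (1, 2), (2, 3), (3, 4), (0, 4), (0, 5), (1, 6), (2, 7), (3, 8), (4, 9),
    (5, 7), (7, 9), (6, 9), (6, 8), (5, 8)]

/-- The Petersen graph. -/
def petersen : SimpleGraph (Fin 10) where
  Adj u v := (u, v) ∈ petersenEdges ∨ (v, u) ∈ petersenEdges
  symm := ⟨fun _ _ h => h.symm⟩
  loopless := ⟨by decide⟩

instance : DecidableRel petersen.Adj := fun u v =>
  inferInstanceAs (Decidable ((u, v) ∈ petersenEdges ∨ (v, u) ∈ petersenEdges))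

/-! ### Transcripts exist -/

theorem exists_transcript {V I : Type*} {G : SimpleGraph V} (P : Protocol G I) (x : V → I) :
    ∃ τ, P.IsTranscript x τ := by
  have key : ∀ k : ℕ, k ≤ P.cost → ∃ τ : Fin P.cost → Bool, ∀ t : Fin P.cost, t.val < k →
      τ t = P.bit t (x (P.src t)) τ := by
    intro k
    induction k with
    | zero => intro _; exact ⟨fun _ => false, fun t ht => absurd ht (Nat.not_lt_zero _)⟩
    | succ k ih =>
      intro hk
      obtain ⟨τ, hτ⟩ := ih (by omega)
      let t₀ : Fin P.cost := ⟨k, by omega⟩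
      have hloc : ∀ t : Fin P.cost, t.val ≤ k → ∀ i,
          P.bit t i (Function.update τ t₀ (P.bit t₀ (x (P.src t₀)) τ)) = P.bit t i τ := by
        intro t ht i
        apply P.bit_local
        intro s hs _
        rw [Function.update_of_ne]
        intro h
        have h1 : s.val = k := by rw [h]
        have h2 : s.val < t.val := hs
        omega
      refine ⟨Function.update τ t₀ (P.bit t₀ (x (P.src t₀)) τ), fun t ht => ?_⟩
      rw [hloc t (by omega)]
      by_cases h : t = t₀
      · subst h; rw [Function.update_self]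
      · rw [Function.update_of_ne h]
        apply hτ
        have : t.val ≠ k := fun h' => h (Fin.ext h')
        omega
  obtain ⟨τ, hτ⟩ := key P.cost le_rfl
  exact ⟨τ, fun t => hτ t t.isLt⟩

/-! ### The lower bound -/

/-- The cut argument at one vertex: if all bits sent or received by `v` agree on the constant inputs
`a` and `b`, then `a = b`. -/
theorem cut_argument {V I : Type*} {G : SimpleGraph V} (P : Protocol G I)
    (hP : P.TestsEquality) (v w : V) (hvw : w ≠ v) (a b : I) (τa τb : Fin P.cost → Bool)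
    (ha : P.IsTranscript (fun _ => a) τa) (hb : P.IsTranscript (fun _ => b) τb)
    (hab : ∀ t, P.src t = v ∨ P.dst t = v → τa t = τb t) : a = b := by
  classical
  let x : V → I := Function.update (fun _ => a) v b
  have hx : P.IsTranscript x τa := by
    intro t
    by_cases h : P.src t = v
    · have h1 : x (P.src t) = b := by simp only [x, h, Function.update_self]
      rw [h1, hab t (Or.inl h), hb t]
      exact (P.bit_local t b τa τb (fun s _ hs => hab s (Or.inr (hs.trans h)))).symm
    · have h1 : x (P.src t) = a := by simp only [x, Function.update_of_ne h]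
      rw [h1]; exact ha t
  have h1 := (hP (fun _ => a) τa ha w).2 (fun _ _ => rfl)
  have h2 : x w = a := by simp only [x, Function.update_of_ne hvw]
  have h3 := (hP x τa hx w).1 (by rw [h2]; exact h1)
  have h4 := h3 w v
  rw [h2] at h4
  simpa [x] using h4

theorem vertex_bound {V : Type*} [DecidableEq V] {G : SimpleGraph V} {n : ℕ}
    (P : Protocol G (Fin n → Bool)) (hP : P.TestsEquality) (v w : V) (hvw : w ≠ v) :
    n ≤ (Finset.univ.filter (fun t => P.src t = v ∨ P.dst t = v)).card := by
  choose τ hτ using fun a : Fin n → Bool => exists_transcript P (fun _ => a)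
  let T := {t : Fin P.cost // P.src t = v ∨ P.dst t = v}
  have hinj : Function.Injective (fun (a : Fin n → Bool) (t : T) => τ a t.1) := by
    intro a b hab
    exact cut_argument P hP v w hvw a b (τ a) (τ b) (hτ a) (hτ b)
      (fun t ht => congrFun hab ⟨t, ht⟩)
  have hcard := Fintype.card_le_of_injective _ hinj
  simp only [Fintype.card_fun, Fintype.card_bool, Fintype.card_fin] at hcard
  have := (Nat.pow_le_pow_iff_right (by norm_num : 1 < 2)).1 hcard
  rwa [Fintype.card_subtype] at this

theorem lower {n : ℕ} (P : Protocol petersen (Fin n → Bool)) (hP : P.TestsEquality) :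
    5 * n ≤ P.cost := by
  have h1 : ∀ v : Fin 10, n ≤ (Finset.univ.filter (fun t => P.src t = v ∨ P.dst t = v)).card := by
    intro v
    exact vertex_bound P hP v (v + 1) (by revert v; decide)
  have h2 : ∑ v : Fin 10, (Finset.univ.filter (fun t => P.src t = v ∨ P.dst t = v)).card
      = 2 * P.cost := by
    have : ∀ t : Fin P.cost, (Finset.univ.filter (fun v : Fin 10 => P.src t = v ∨ P.dst t = v)).card
        = 2 := by
      intro t
      have hne : P.src t ≠ P.dst t := (P.adj t).ne
      have : Finset.univ.filter (fun v : Fin 10 => P.src t = v ∨ P.dst t = v)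
          = {P.src t, P.dst t} := by
        ext v; simp [eq_comm]
      rw [this, Finset.card_pair hne]
    calc ∑ v : Fin 10, (Finset.univ.filter (fun t => P.src t = v ∨ P.dst t = v)).card
        = ∑ v : Fin 10, ∑ t : Fin P.cost, if P.src t = v ∨ P.dst t = v then 1 else 0 := by
          simp only [Finset.card_filter]
      _ = ∑ t : Fin P.cost, ∑ v : Fin 10, if P.src t = v ∨ P.dst t = v then 1 else 0 :=
          Finset.sum_comm
      _ = ∑ t : Fin P.cost, 2 := by
          refine Finset.sum_congr rfl fun t _ => ?_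
          rw [← this t, Finset.card_filter]
      _ = 2 * P.cost := by simp [mul_comm]
  have h3 : ∑ _v : Fin 10, n ≤ ∑ v : Fin 10,
      (Finset.univ.filter (fun t => P.src t = v ∨ P.dst t = v)).card :=
    Finset.sum_le_sum fun v _ => h1 v
  rw [h2] at h3
  simp at h3
  omega

/-! ### Protocols from hash functions -/

open Pool.Agent.Lib.Helper43.PetersenCert (U W)

/-- The thirty directed edges of the Petersen graph. -/
def dartSrc (i : Fin 30) : Fin 10 :=
  if h : i.val < 15 then U ⟨i.val, h⟩ else W ⟨i.val - 15, by omega⟩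

/-- The thirty directed edges of the Petersen graph. -/
def dartDst (i : Fin 30) : Fin 10 :=
  if h : i.val < 15 then W ⟨i.val, h⟩ else U ⟨i.val - 15, by omega⟩

theorem dart_adj : ∀ i, petersen.Adj (dartSrc i) (dartDst i) := by decide

theorem edge_adj : ∀ e, petersen.Adj (U e) (W e) := by decide

theorem dart_two : ∀ w v : Fin 10, w = v ∨ (∃ i, dartSrc i = w ∧ dartDst i = v) ∨
    ∃ i j, dartSrc i = w ∧ dartSrc j = dartDst i ∧ dartDst j = v := by decide +kernel

section Hash

variable {I : Type} (L : ℕ) (g : Fin 15 → I → Fin L → Bool)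

theorem div_lt15 {t L : ℕ} (h : t < 15 * L) : t / L < 15 :=
  Nat.div_lt_of_lt_mul (by rwa [mul_comm] at h)

/-- The sender at time `t`. -/
def hsrc (t : Fin (15 * L + 60)) : Fin 10 :=
  if h : t.val < 15 * L then U ⟨t.val / L, div_lt15 h⟩
  else dartSrc ⟨(t.val - 15 * L) % 30, Nat.mod_lt _ (by norm_num)⟩

/-- The receiver at time `t`. -/
def hdst (t : Fin (15 * L + 60)) : Fin 10 :=
  if h : t.val < 15 * L then W ⟨t.val / L, div_lt15 h⟩
  else dartDst ⟨(t.val - 15 * L) % 30, Nat.mod_lt _ (by norm_num)⟩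

theorem pos_of_lt {t L : ℕ} (h : t < 15 * L) : 0 < L := by
  rcases Nat.eq_zero_or_pos L with h0 | h0
  · subst h0; omega
  · exact h0

/-- The value that the receiver expects at time `t`, if her input is `a` and everything is fine. -/
def expect (t : Fin (15 * L + 60)) (a : I) : Bool :=
  if h : t.val < 15 * L then
    g ⟨t.val / L, div_lt15 h⟩ a
      ⟨t.val % L, Nat.mod_lt _ (pos_of_lt h)⟩
  else true

/-- The protocol: first, for each edge `U e, W e`, the player `U e` sends the `L` bits `g e` of her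
input; then, in two rounds, each player tells each of her neighbours whether all she has received so
far was as expected. -/
def hashProtocol : Protocol petersen I where
  cost := 15 * L + 60
  src := hsrc L
  dst := hdst L
  adj := by
    intro t
    unfold hsrc hdst
    split
    · exact edge_adj _
    · exact dart_adj _
  bit t a τ :=
    if t.val < 15 * L then expect L g t a
    else decide (∀ s, s < t → hdst L s = hsrc L t → τ s = expect L g s a)
  bit_local := by
    intro t a τ τ' h
    split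
    · rfl
    · congr 1
      apply propext
      constructor
      · intro h1 s hs hd; rw [← h s hs hd]; exact h1 s hs hd
      · intro h1 s hs hd; rw [h s hs hd]; exact h1 s hs hd
  out v a τ := decide (∀ s, hdst L s = v → τ s = expect L g s a)
  out_local := by
    intro v a τ τ' h
    congr 1
    apply propext
    constructor
    · intro h1 s hd; rw [← h s hd]; exact h1 s hd
    · intro h1 s hd; rw [h s hd]; exact h1 s hd

theorem hashProtocol_tests
    (hg : ∀ x : Fin 10 → I, (∀ e, g e (x (U e)) = g e (x (W e))) → ∀ u w, x u = x w) :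
    (hashProtocol L g).TestsEquality := by
  intro x τ hτ v
  change decide (∀ s, hdst L s = v → τ s = expect L g s (x v)) = true ↔ _
  rw [decide_eq_true_iff]
  have hτ' : ∀ t : Fin (15 * L + 60), τ t = if t.val < 15 * L then expect L g t (x (hsrc L t))
      else decide (∀ s, s < t → hdst L s = hsrc L t → τ s = expect L g s (x (hsrc L t))) := hτ
  constructor
  · intro hv
    apply hg
    by_contra hne
    push Not at hne
    obtain ⟨e, he⟩ := hne
    -- the receiver `W e` has seen something unexpected in the first phase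
    obtain ⟨i, hi⟩ : ∃ i, g e (x (U e)) i ≠ g e (x (W e)) i := by
      by_contra h; push Not at h; exact he (funext h)
    have hL : 0 < L := i.pos
    have hlt : e.val * L + i.val < 15 * L := by
      have : (e.val + 1) * L ≤ 15 * L := Nat.mul_le_mul_right _ e.isLt
      nlinarith [i.isLt]
    let s₀ : Fin (15 * L + 60) := ⟨e.val * L + i.val, by omega⟩
    have hdiv : (e.val * L + i.val) / L = e.val := by
      rw [mul_comm, Nat.mul_add_div hL, Nat.div_eq_of_lt i.isLt, add_zero]
    have hmod : (e.val * L + i.val) % L = i.val := by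
      rw [mul_comm, Nat.mul_add_mod, Nat.mod_eq_of_lt i.isLt]
    have hs₀lt : s₀.val < 15 * L := hlt
    have hs₀src : hsrc L s₀ = U e := by
      unfold hsrc; rw [dif_pos hs₀lt]; congr 1; exact Fin.ext hdiv
    have hs₀dst : hdst L s₀ = W e := by
      unfold hdst; rw [dif_pos hs₀lt]; congr 1; exact Fin.ext hdiv
    have hexp : ∀ a, expect L g s₀ a = g e a i := by
      intro a
      unfold expect; rw [dif_pos hs₀lt]
      have e1 : (⟨s₀.val / L, div_lt15 hs₀lt⟩ : Fin 15) = e := Fin.ext hdiv
      have e2 : (⟨s₀.val % L, Nat.mod_lt _ (pos_of_lt hs₀lt)⟩ : Fin L) = i := Fin.ext hmod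
      rw [e1, e2]
    have hbad : τ s₀ ≠ expect L g s₀ (x (W e)) := by
      rw [hτ' s₀, if_pos hs₀lt, hs₀src, hexp, hexp]; exact hi
    -- alarms propagate
    have alarm : ∀ (w : Fin 10) (s t : Fin (15 * L + 60)), s < t → ¬ t.val < 15 * L →
        hdst L s = w → τ s ≠ expect L g s (x w) → hsrc L t = w → ∀ a, τ t ≠ expect L g t a := by
      intro w s t hst ht hd hb hs a
      have h1 : expect L g t a = true := by unfold expect; rw [dif_neg ht]
      rw [h1, hτ' t, if_neg ht, hs]
      simp only [ne_eq, decide_eq_true_eq, not_forall]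
      exact ⟨s, hst, hd, hb⟩
    -- the darts of the two rounds
    let r1 : Fin 30 → Fin (15 * L + 60) := fun j => ⟨15 * L + j.val, by omega⟩
    let r2 : Fin 30 → Fin (15 * L + 60) := fun j => ⟨15 * L + 30 + j.val, by omega⟩
    have r1n : ∀ j, ¬ (r1 j).val < 15 * L := fun j => by simp [r1]
    have r2n : ∀ j, ¬ (r2 j).val < 15 * L := fun j => by simp only [r2]; omega
    have r1m : ∀ j : Fin 30, (15 * L + j.val - 15 * L) % 30 = j.val := fun j => by omega
    have r2m : ∀ j : Fin 30, (15 * L + 30 + j.val - 15 * L) % 30 = j.val := fun j => by omega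
    have r1s : ∀ j, hsrc L (r1 j) = dartSrc j := fun j => by
      unfold hsrc; rw [dif_neg (r1n j)]; congr 1; exact Fin.ext (r1m j)
    have r1d : ∀ j, hdst L (r1 j) = dartDst j := fun j => by
      unfold hdst; rw [dif_neg (r1n j)]; congr 1; exact Fin.ext (r1m j)
    have r2s : ∀ j, hsrc L (r2 j) = dartSrc j := fun j => by
      unfold hsrc; rw [dif_neg (r2n j)]; congr 1; exact Fin.ext (r2m j)
    have r2d : ∀ j, hdst L (r2 j) = dartDst j := fun j => by
      unfold hdst; rw [dif_neg (r2n j)]; congr 1; exact Fin.ext (r2m j)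
    rcases dart_two (W e) v with h | ⟨j, hj1, hj2⟩ | ⟨j, k, hj, hjk, hk⟩
    · rw [h] at hbad hs₀dst
      exact hbad (hv s₀ hs₀dst)
    · refine alarm (W e) s₀ (r1 j) ?_ (r1n j) hs₀dst hbad (by rw [r1s, hj1]) (x v)
        (hv (r1 j) (by rw [r1d, hj2]))
      exact Fin.lt_def.2 (lt_of_lt_of_le hs₀lt (not_lt.1 (r1n j)))
    · have hb2 : ∀ a, τ (r1 j) ≠ expect L g (r1 j) a := by
        refine alarm (W e) s₀ (r1 j) ?_ (r1n j) hs₀dst hbad (by rw [r1s, hj])
        exact Fin.lt_def.2 (lt_of_lt_of_le hs₀lt (not_lt.1 (r1n j)))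
      refine alarm (dartDst j) (r1 j) (r2 k) ?_ (r2n k) (r1d j) (hb2 _) (by rw [r2s, hjk]) (x v)
        (hv (r2 k) (by rw [r2d, hk]))
      exact Fin.lt_def.2 (show 15 * L + j.val < 15 * L + 30 + k.val by omega)
  · intro hx
    have hx' : ∀ u, x u = x v := fun u => hx u v
    have main : ∀ (k : ℕ) (s : Fin (15 * L + 60)), s.val = k → τ s = expect L g s (x v) := by
      intro k
      induction k using Nat.strong_induction_on with
      | _ k ih =>
        intro s hs
        rw [hτ' s]
        by_cases h : s.val < 15 * L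
        · rw [if_pos h, hx']
        · rw [if_neg h]
          have h1 : expect L g s (x v) = true := by unfold expect; rw [dif_neg h]
          rw [h1, decide_eq_true_iff]
          intro s' hs' _
          rw [hx']
          exact ih s'.val (by have : s'.val < s.val := hs'; omega) s' rfl
    intro s _
    exact main s.val s rfl

end Hash

/-! ### The hash functions -/

section Codes

open Pool.Agent.Lib.Helper43.PetersenCert (H S Q cert sum_S H_bound)

/-- The `j`-th coordinate of the hash of the vector `x` along the edge `e`, shifted to be nonnegative. -/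
theorem hash_range {s : ℕ} (e : Fin 15) (x : Fin 3 → Fin (2 ^ s)) :
    0 ≤ (∑ a, H e a * ((x a : ℕ) : ℤ)) + 4 * 2 ^ s ∧
      (∑ a, H e a * ((x a : ℕ) : ℤ)) + 4 * 2 ^ s < 2 ^ (s + 3) := by
  have hx : ∀ a, 0 ≤ ((x a : ℕ) : ℤ) ∧ ((x a : ℕ) : ℤ) < 2 ^ s := by
    intro a
    refine ⟨by positivity, ?_⟩
    exact_mod_cast (x a).isLt
  have hb : ∀ a, -(2 ^ s : ℤ) ≤ H e a * ((x a : ℕ) : ℤ) ∧ H e a * ((x a : ℕ) : ℤ) ≤ 2 ^ s := by
    intro a
    have := hx a
    have hp : (0 : ℤ) < 2 ^ s := by positivity
    rcases H_bound e a with h | h | h <;> rw [h] <;> constructor <;> linarith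
  have hp : (0 : ℤ) < 2 ^ s := by positivity
  rw [Fin.sum_univ_three, pow_add]
  have h0 := hb 0
  have h1 := hb 1
  have h2 := hb 2
  constructor <;> linarith

/-- The hash of `x` along the edge `e`. -/
def hash {d s : ℕ} (e : Fin 15) (x : Fin d → Fin 3 → Fin (2 ^ s)) (j : Fin d) : Fin (2 ^ (s + 3)) :=
  ⟨((∑ a, H e a * ((x j a : ℕ) : ℤ)) + 4 * 2 ^ s).toNat, by
    have h := hash_range e (x j)
    rw [Int.toNat_lt h.1]
    exact_mod_cast h.2⟩

theorem hash_eq {d s : ℕ} {e : Fin 15} {x y : Fin d → Fin 3 → Fin (2 ^ s)}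
    (h : hash e x = hash e y) (j : Fin d) :
    ∑ a, H e a * ((x j a : ℕ) : ℤ) = ∑ a, H e a * ((y j a : ℕ) : ℤ) := by
  have h1 := congrArg Fin.val (congrFun h j)
  have hx := (hash_range e (x j)).1
  have hy := (hash_range e (y j)).1
  simp only [hash] at h1
  have h2 : ((∑ a, H e a * ((x j a : ℕ) : ℤ)) + 4 * 2 ^ s)
      = ((∑ a, H e a * ((y j a : ℕ) : ℤ)) + 4 * 2 ^ s) := by
    rw [← Int.toNat_of_nonneg hx, ← Int.toNat_of_nonneg hy, h1]
  linarith

/-- The Gram matrix of `x`. -/
def gram {d s : ℕ} (x : Fin d → Fin 3 → Fin (2 ^ s)) (a b : Fin 3) : ℕ :=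
  ∑ j, (x j a : ℕ) * (x j b : ℕ)

theorem gram_lt {d s : ℕ} (x : Fin d → Fin 3 → Fin (2 ^ s)) (a b : Fin 3) :
    gram x a b < d * 4 ^ s + 1 := by
  unfold gram
  have : ∑ j : Fin d, (x j a : ℕ) * (x j b : ℕ) ≤ ∑ _j : Fin d, 4 ^ s := by
    refine Finset.sum_le_sum fun j _ => ?_
    have h4 : (4 : ℕ) ^ s = 2 ^ s * 2 ^ s := by rw [← mul_pow]; norm_num
    rw [h4]
    exact Nat.mul_le_mul (x j a).isLt.le (x j b).isLt.le
  simp at this
  omega

/-- The key lemma: ten vectors with the same Gram matrix whose hashes agree along all the edges of the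
Petersen graph are all equal. -/
theorem hash_rigid {d s : ℕ} (x : Fin 10 → Fin d → Fin 3 → Fin (2 ^ s)) (R : Fin 3 → Fin 3 → ℕ)
    (hR : ∀ v, gram (x v) = R) (hx : ∀ e, hash e (x (U e)) = hash e (x (W e))) (u w : Fin 10) :
    x u = x w := by
  let y : Fin d → Fin 10 → Fin 3 → ℤ := fun j v a => ((x v j a : ℕ) : ℤ)
  have hy : ∀ j e, ∑ a, H e a * y j (U e) a = ∑ a, H e a * y j (W e) a :=
    fun j e => hash_eq (hx e) j
  have hsum : ∑ j, Q (y j) = 0 := by
    unfold Q
    calc ∑ j, ∑ v, ∑ a, ∑ b, S v a b * (y j v a * y j v b)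
        = ∑ v, ∑ j, ∑ a, ∑ b, S v a b * (y j v a * y j v b) := Finset.sum_comm
      _ = ∑ v, ∑ a, ∑ b, S v a b * (R a b : ℤ) := by
          refine Finset.sum_congr rfl fun v _ => ?_
          rw [Finset.sum_comm]
          refine Finset.sum_congr rfl fun a _ => ?_
          rw [Finset.sum_comm]
          refine Finset.sum_congr rfl fun b _ => ?_
          rw [← Finset.mul_sum, ← hR v]
          simp [gram, y]
      _ = ∑ a, ∑ b, (∑ v, S v a b) * (R a b : ℤ) := by
          rw [Finset.sum_comm]
          refine Finset.sum_congr rfl fun a _ => ?_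
          rw [Finset.sum_comm]
          refine Finset.sum_congr rfl fun b _ => ?_
          rw [Finset.sum_mul]
      _ = 0 := by simp [sum_S]
  have hnn : ∀ j ∈ Finset.univ, 0 ≤ Q (y j) := fun j _ => (cert (y j) (hy j)).1
  have hz : ∀ j, Q (y j) = 0 := fun j =>
    (Finset.sum_eq_zero_iff_of_nonneg hnn).1 hsum j (Finset.mem_univ j)
  funext j a
  have := (cert (y j) (hy j)).2 (hz j).le u w a
  simp only [y] at this
  exact Fin.ext (by exact_mod_cast this)

theorem upper_aux (n d s : ℕ) (h : n + 9 * d + 18 * s ≤ 3 * d * s) :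
    ∃ P : Protocol petersen (Fin n → Bool), P.TestsEquality ∧
      P.cost = 15 * (d * (s + 3)) + 60 := by
  classical
  let X := Fin d → Fin 3 → Fin (2 ^ s)
  let gr : X → (Fin 3 → Fin 3 → Fin (d * 4 ^ s + 1)) := fun x a b => ⟨gram x a b, gram_lt x a b⟩
  have hcard : Fintype.card (Fin 3 → Fin 3 → Fin (d * 4 ^ s + 1)) * 2 ^ n ≤ Fintype.card X := by
    simp only [X, Fintype.card_fun, Fintype.card_fin]
    have h1 : d * 4 ^ s + 1 ≤ 2 ^ (d + 2 * s) := by
      have h4 : (4 : ℕ) ^ s = 2 ^ (2 * s) := by rw [pow_mul]; norm_num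
      have h5 : d + 1 ≤ 2 ^ d := Nat.lt_two_pow_self
      rw [pow_add, ← h4]
      have h6 : 1 ≤ 4 ^ s := Nat.one_le_pow _ _ (by norm_num)
      calc d * 4 ^ s + 1 ≤ d * 4 ^ s + 4 ^ s := by omega
        _ = (d + 1) * 4 ^ s := by ring
        _ ≤ 2 ^ d * 4 ^ s := Nat.mul_le_mul_right _ h5
    calc ((d * 4 ^ s + 1) ^ 3) ^ 3 * 2 ^ n ≤ ((2 ^ (d + 2 * s)) ^ 3) ^ 3 * 2 ^ n :=
          Nat.mul_le_mul_right _ (Nat.pow_le_pow_left (Nat.pow_le_pow_left h1 3) 3)
      _ = 2 ^ ((d + 2 * s) * 3 * 3 + n) := by rw [← pow_mul, ← pow_mul, ← pow_add]; congr 1; ring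
      _ ≤ 2 ^ (s * 3 * d) := Nat.pow_le_pow_right (by norm_num) (by nlinarith)
      _ = ((2 ^ s) ^ 3) ^ d := by rw [← pow_mul, ← pow_mul]; congr 1; ring
  obtain ⟨R, hR⟩ := Fintype.exists_le_card_fiber_of_mul_le_card gr hcard
  have hemb : Nonempty ((Fin n → Bool) ↪ {x : X // gr x = R}) := by
    apply Function.Embedding.nonempty_of_card_le
    rw [Fintype.card_subtype]
    simpa using hR
  obtain ⟨φ⟩ := hemb
  have henc : Nonempty ((Fin d → Fin (2 ^ (s + 3))) ↪ (Fin (d * (s + 3)) → Bool)) := by
    apply Function.Embedding.nonempty_of_card_le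
    simp only [Fintype.card_fun, Fintype.card_fin, Fintype.card_bool]
    rw [← pow_mul, mul_comm d]
  obtain ⟨ι⟩ := henc
  let g : Fin 15 → (Fin n → Bool) → Fin (d * (s + 3)) → Bool := fun e i => ι (hash e (φ i).1)
  refine ⟨hashProtocol (d * (s + 3)) g, hashProtocol_tests _ _ ?_, rfl⟩
  intro x hx u w
  apply φ.injective
  apply Subtype.ext
  refine hash_rigid (fun v => (φ (x v)).1) (fun a b => (R a b : ℕ)) ?_ ?_ u w
  · intro v
    have := (φ (x v)).2
    funext a b
    have := congrArg Fin.val (congrFun (congrFun this a) b)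
    exact this
  · intro e
    exact ι.injective (hx e)

end Codes

theorem eqCost_le {n d s : ℕ} (h : n + 9 * d + 18 * s ≤ 3 * d * s) :
    eqCost petersen n ≤ 15 * (d * (s + 3)) + 60 :=
  Nat.sInf_le (upper_aux n d s h)

theorem eqCost_nonempty (n : ℕ) :
    {c | ∃ P : Protocol petersen (Fin n → Bool), P.TestsEquality ∧ P.cost = c}.Nonempty := by
  refine ⟨_, upper_aux n 7 (n + 63) (by nlinarith)⟩

theorem le_eqCost (n : ℕ) : 5 * n ≤ eqCost petersen n := by
  obtain ⟨P, hP, hc⟩ := Nat.sInf_mem (eqCost_nonempty n)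
  have := lower P hP
  rw [hc] at this
  exact this

theorem tendsto_five :
    Tendsto (fun n : ℕ => (eqCost petersen n : ℝ) / n) atTop (𝓝 5) := by
  rw [tendsto_order]
  constructor
  · intro a ha
    filter_upwards [eventually_gt_atTop 0] with n hn
    have hn' : (0 : ℝ) < n := by exact_mod_cast hn
    rw [lt_div_iff₀ hn']
    have h1 : ((5 * n : ℕ) : ℝ) ≤ eqCost petersen n := by exact_mod_cast le_eqCost n
    push_cast at h1
    nlinarith
  · intro b hb
    -- choose the number of digits
    obtain ⟨k, hk⟩ := exists_nat_gt (30 / (b - 5))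
    let d := k + 7
    have hb5 : 0 < b - 5 := by linarith
    have hd1 : (0 : ℝ) < (k : ℝ) + 1 := by positivity
    have hlim : (15 * (d : ℝ)) / (3 * d - 18) < b := by
      have h1 : (3 * (d : ℝ) - 18) = 3 * (k + 1) := by simp only [d]; push_cast; ring
      rw [h1, div_lt_iff₀ (by positivity)]
      have h2 : 30 < (k : ℝ) * (b - 5) := by rwa [div_lt_iff₀ hb5] at hk
      simp only [d]; push_cast
      nlinarith
    have ht : Tendsto (fun n : ℕ => (15 * (d : ℝ)) / (3 * d - 18) +
        ((15 * (d : ℝ)) / (3 * d - 18) * (9 * d) + (60 * d + 60)) * (1 / (n : ℝ))) atTop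
        (𝓝 ((15 * (d : ℝ)) / (3 * d - 18) +
        ((15 * (d : ℝ)) / (3 * d - 18) * (9 * d) + (60 * d + 60)) * 0)) :=
      (tendsto_one_div_atTop_nhds_zero_nat.const_mul _).const_add _
    rw [mul_zero, add_zero] at ht
    filter_upwards [ht.eventually (gt_mem_nhds hlim), eventually_gt_atTop 0] with n hn hn0
    refine lt_of_le_of_lt ?_ hn
    have hn' : (0 : ℝ) < n := by exact_mod_cast hn0
    let s := (n + 9 * d) / (3 * (k + 1)) + 1
    have hs : n + 9 * d + 18 * s ≤ 3 * d * s := by
      have h1 : n + 9 * d < s * (3 * (k + 1)) := by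
        simp only [s]
        have := Nat.lt_div_mul_add (a := n + 9 * d) (b := 3 * (k + 1)) (by positivity)
        nlinarith
      simp only [d] at h1 ⊢
      nlinarith
    have h1 := eqCost_le hs
    have h2 : (s : ℝ) ≤ (n + 9 * d) / (3 * (k + 1)) + 1 := by
      simp only [s]
      push_cast
      have := @Nat.cast_div_le ℝ _ _ _ (n + 9 * d) (3 * (k + 1))
      push_cast at this
      linarith
    have h3 : ((eqCost petersen n : ℕ) : ℝ) ≤ 15 * (d * (s + 3)) + 60 := by exact_mod_cast h1
    have h4 : (3 * (d : ℝ) - 18) = 3 * (k + 1) := by simp only [d]; push_cast; ring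
    rw [h4, div_le_iff₀ hn']
    have hd0 : (0 : ℝ) ≤ d := by positivity
    calc ((eqCost petersen n : ℕ) : ℝ) ≤ 15 * (d * (s + 3)) + 60 := h3
      _ ≤ 15 * (d * (((n + 9 * d) / (3 * (k + 1)) + 1) + 3)) + 60 := by gcongr
      _ = _ := by field_simp; ring

/-! ### Connectivity and `c₂` of the Petersen graph -/

theorem petersen_connected : petersen.Connected := by
  rw [SimpleGraph.connected_iff_exists_forall_reachable]
  refine ⟨0, fun w => ?_⟩
  have h : ∀ w : Fin 10, w = 0 ∨ petersen.Adj 0 w ∨ ∃ u, petersen.Adj 0 u ∧ petersen.Adj u w := by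
    decide +kernel
  rcases h w with h | h | ⟨u, h1, h2⟩
  · rw [h]
  · exact h.reachable
  · exact h1.reachable.trans h2.reachable

/-- The edge `e` crosses the cut `S`. -/
def crosses (S : Finset (Fin 10)) (e : Fin 15) : Prop := ¬ (U e ∈ S ↔ W e ∈ S)

instance (S : Finset (Fin 10)) (e : Fin 15) : Decidable (crosses S e) :=
  inferInstanceAs (Decidable (¬ _))

theorem edge_unique : ∀ u v : Fin 10, petersen.Adj u v →
    ∃ e, ((U e = u ∧ W e = v) ∨ (U e = v ∧ W e = u)) ∧
      ∀ e', ((U e' = u ∧ W e' = v) ∨ (U e' = v ∧ W e' = u)) → e' = e := by decide +kernel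

theorem edge_none : ∀ u v : Fin 10, ¬ petersen.Adj u v →
    ∀ e, ¬ ((U e = u ∧ W e = v) ∨ (U e = v ∧ W e = u)) := by decide +kernel

theorem m_eq {m : Sym2 (Fin 10) → ℕ} (hm : ∀ e, m e ≠ 0 → e ∈ petersen.edgeSet) (u v : Fin 10) :
    m s(u, v) = ∑ e : Fin 15, if ((U e = u ∧ W e = v) ∨ (U e = v ∧ W e = u)) then m s(U e, W e)
      else 0 := by
  by_cases h : petersen.Adj u v
  · obtain ⟨e, he, huniq⟩ := edge_unique u v h
    rw [Finset.sum_eq_single e]
    · rw [if_pos he]
      rcases he with ⟨h1, h2⟩ | ⟨h1, h2⟩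
      · rw [h1, h2]
      · rw [h1, h2, Sym2.eq_swap]
    · intro e' _ hne
      rw [if_neg]
      intro h'; exact hne (huniq e' h')
    · intro h'; exact absurd (Finset.mem_univ _) h'
  · have h0 : m s(u, v) = 0 := by
      by_contra hne
      exact h ((SimpleGraph.mem_edgeSet _).1 (hm _ hne))
    rw [h0, Finset.sum_eq_zero]
    intro e _
    rw [if_neg (edge_none u v h e)]

theorem cut_eq {m : Sym2 (Fin 10) → ℕ} (hm : ∀ e, m e ≠ 0 → e ∈ petersen.edgeSet)
    (S : Finset (Fin 10)) :
    ∑ u ∈ S, ∑ v ∈ Sᶜ, m s(u, v) = ∑ e : Fin 15, if crosses S e then m s(U e, W e) else 0 := by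
  calc ∑ u ∈ S, ∑ v ∈ Sᶜ, m s(u, v)
      = ∑ u ∈ S, ∑ v ∈ Sᶜ, ∑ e : Fin 15,
        if ((U e = u ∧ W e = v) ∨ (U e = v ∧ W e = u)) then m s(U e, W e) else 0 := by
        refine Finset.sum_congr rfl fun u _ => Finset.sum_congr rfl fun v _ => m_eq hm u v
    _ = ∑ e : Fin 15, ∑ u ∈ S, ∑ v ∈ Sᶜ,
        if ((U e = u ∧ W e = v) ∨ (U e = v ∧ W e = u)) then m s(U e, W e) else 0 := by
        rw [Finset.sum_comm]
        rw [Finset.sum_comm]
        simp_rw [Finset.sum_comm (s := Sᶜ) (t := Finset.univ)]
        rw [Finset.sum_comm]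
    _ = _ := by
        refine Finset.sum_congr rfl fun e _ => ?_
        by_cases h1 : U e ∈ S <;> by_cases h2 : W e ∈ S
        · rw [if_neg (c := crosses S e) (by unfold crosses; tauto)]
          refine Finset.sum_eq_zero fun u hu => Finset.sum_eq_zero fun v hv => if_neg ?_
          rw [Finset.mem_compl] at hv
          rintro (⟨a, b⟩ | ⟨a, b⟩)
          · exact hv (b ▸ h2)
          · exact hv (a ▸ h1)
        · rw [if_pos (c := crosses S e) (by unfold crosses; tauto), Finset.sum_eq_single (U e), Finset.sum_eq_single (W e), if_pos]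
          · exact Or.inl ⟨rfl, rfl⟩
          · intro v hv hne
            rw [if_neg]
            rintro (⟨a, b⟩ | ⟨a, b⟩)
            · exact hne b.symm
            · exact h2 (b ▸ h1)
          · intro h; exact absurd (Finset.mem_compl.2 h2) h
          · intro u hu hne
            refine Finset.sum_eq_zero fun v hv => if_neg ?_
            rintro (⟨a, b⟩ | ⟨a, b⟩)
            · exact hne a.symm
            · exact h2 (b ▸ hu)
          · intro h; exact absurd h1 h
        · rw [if_pos (c := crosses S e) (by unfold crosses; tauto), Finset.sum_eq_single (W e), Finset.sum_eq_single (U e), if_pos]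
          · exact Or.inr ⟨rfl, rfl⟩
          · intro v hv hne
            rw [if_neg]
            rintro (⟨a, b⟩ | ⟨a, b⟩)
            · exact h1 (a ▸ h2)
            · exact hne a.symm
          · intro h; exact absurd (Finset.mem_compl.2 h1) h
          · intro u hu hne
            refine Finset.sum_eq_zero fun v hv => if_neg ?_
            rintro (⟨a, b⟩ | ⟨a, b⟩)
            · exact h1 (a ▸ hu)
            · exact hne b.symm
          · intro h; exact absurd h2 h
        · rw [if_neg (c := crosses S e) (by unfold crosses; tauto)]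
          refine Finset.sum_eq_zero fun u hu => Finset.sum_eq_zero fun v hv => if_neg ?_
          rintro (⟨a, b⟩ | ⟨a, b⟩)
          · exact h1 (a ▸ hu)
          · exact h2 (b ▸ hu)

theorem total_ge (m : Sym2 (Fin 10) → ℕ) : ∑ e : Fin 15, m s(U e, W e) ≤ ∑ e, m e := by
  have hinj : Function.Injective (fun e : Fin 15 => s(U e, W e)) := by
    have : ∀ e e' : Fin 15, s(U e, W e) = s(U e', W e') → e = e' := by decide +kernel
    intro e e' h; exact this e e' h
  rw [← Finset.sum_image (f := m) (s := Finset.univ) (g := fun e : Fin 15 => s(U e, W e))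
    (fun a _ b _ h => hinj h)]
  exact Finset.sum_le_sum_of_subset (Finset.subset_univ _)

theorem nl (a0 a1 a2 a3 a4 a5 a6 a7 a8 a9 a10 a11 a12 a13 a14 : ℕ)
  (d0 : a0 + a4 + a5 = 2) (d1 : a0 + a1 + a6 = 2) (d2 : a1 + a2 + a7 = 2) (d3 : a2 + a3 + a8 = 2)
  (d4 : a3 + a4 + a9 = 2) (d5 : a5 + a10 + a14 = 2) (d6 : a6 + a12 + a13 = 2)
  (d7 : a7 + a10 + a11 = 2) (d8 : a8 + a13 + a14 = 2) (d9 : a9 + a11 + a12 = 2)
  (b0 : a0 ≤ 1) (b1 : a1 ≤ 1) (b2 : a2 ≤ 1) (b3 : a3 ≤ 1) (b4 : a4 ≤ 1) (b5 : a5 ≤ 1)
  (b6 : a6 ≤ 1) (b7 : a7 ≤ 1) (b8 : a8 ≤ 1) (b9 : a9 ≤ 1) (b10 : a10 ≤ 1) (b11 : a11 ≤ 1)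
  (b12 : a12 ≤ 1) (b13 : a13 ≤ 1) (b14 : a14 ≤ 1)
  (q0 : 2 ≤ a0 + (a2 + (a9 + (a10 + a13))))
  (q1 : 2 ≤ a0 + (a3 + (a7 + (a12 + a14))))
  (q2 : 2 ≤ a1 + (a3 + (a5 + (a11 + a13))))
  (q3 : 2 ≤ a1 + (a4 + (a8 + (a10 + a12))))
  (q4 : 2 ≤ a2 + (a4 + (a6 + (a11 + a14))))
  (q5 : 2 ≤ a5 + (a6 + (a7 + (a8 + a9)))) : False := by
  rcases Nat.le_one_iff_eq_zero_or_eq_one.1 b5 with rfl | rfl <;>
  rcases Nat.le_one_iff_eq_zero_or_eq_one.1 b6 with rfl | rfl <;>
  rcases Nat.le_one_iff_eq_zero_or_eq_one.1 b7 with rfl | rfl <;>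
  rcases Nat.le_one_iff_eq_zero_or_eq_one.1 b8 with rfl | rfl <;>
  rcases Nat.le_one_iff_eq_zero_or_eq_one.1 b9 with rfl | rfl <;> omega

set_option maxHeartbeats 4000000 in
theorem c2_lower {m : Sym2 (Fin 10) → ℕ} (hm : IsTwoEdgeConnectedSpanning petersen m) :
    11 ≤ ∑ e, m e := by
  have hcut : ∀ S : Finset (Fin 10), S.Nonempty → Sᶜ.Nonempty →
      2 ≤ ∑ e : Fin 15, if crosses S e then m s(U e, W e) else 0 := fun S h1 h2 => by
    rw [← cut_eq hm.supp]; exact hm.cut S h1 h2
  refine le_trans ?_ (total_ge m)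
  generalize ha : (fun e => m s(U e, W e)) = a at *
  have ha' : ∀ e, m s(U e, W e) = a e := fun e => congrFun ha e
  simp only [ha'] at hcut ⊢
  by_contra hlt
  push Not at hlt
  have c0 := hcut {0} (by decide) (by decide)
  have c1 := hcut {1} (by decide) (by decide)
  have c2 := hcut {2} (by decide) (by decide)
  have c3 := hcut {3} (by decide) (by decide)
  have c4 := hcut {4} (by decide) (by decide)
  have c5 := hcut {5} (by decide) (by decide)
  have c6 := hcut {6} (by decide) (by decide)
  have c7 := hcut {7} (by decide) (by decide)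
  have c8 := hcut {8} (by decide) (by decide)
  have c9 := hcut {9} (by decide) (by decide)
  have p0 := hcut {0, 1} (by decide) (by decide)
  have p1 := hcut {1, 2} (by decide) (by decide)
  have p2 := hcut {2, 3} (by decide) (by decide)
  have p3 := hcut {3, 4} (by decide) (by decide)
  have p4 := hcut {0, 4} (by decide) (by decide)
  have p5 := hcut {0, 5} (by decide) (by decide)
  have p6 := hcut {1, 6} (by decide) (by decide)
  have p7 := hcut {2, 7} (by decide) (by decide)
  have p8 := hcut {3, 8} (by decide) (by decide)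
  have p9 := hcut {4, 9} (by decide) (by decide)
  have p10 := hcut {5, 7} (by decide) (by decide)
  have p11 := hcut {7, 9} (by decide) (by decide)
  have p12 := hcut {6, 9} (by decide) (by decide)
  have p13 := hcut {6, 8} (by decide) (by decide)
  have p14 := hcut {5, 8} (by decide) (by decide)
  have q0 := hcut {0, 3, 4, 5, 8} (by decide) (by decide)
  have q1 := hcut {0, 4, 5, 7, 9} (by decide) (by decide)
  have q2 := hcut {0, 1, 4, 6, 9} (by decide) (by decide)
  have q3 := hcut {0, 1, 5, 6, 8} (by decide) (by decide)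
  have q4 := hcut {0, 1, 2, 5, 7} (by decide) (by decide)
  have q5 := hcut {0, 1, 2, 3, 4} (by decide) (by decide)
  simp [Fin.sum_univ_succ, crosses, U, W] at c0 c1 c2 c3 c4 c5 c6 c7 c8 c9 p0 p1 p2 p3 p4 p5 p6 p7 p8 p9 p10 p11 p12 p13 p14 q0 q1 q2 q3 q4 q5 hlt
  generalize a 0 = a0 at *
  generalize a 1 = a1 at *
  generalize a 2 = a2 at *
  generalize a 3 = a3 at *
  generalize a 4 = a4 at *
  generalize a 5 = a5 at *
  generalize a 6 = a6 at *
  generalize a 7 = a7 at *
  generalize a 8 = a8 at *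
  generalize a 9 = a9 at *
  generalize a 10 = a10 at *
  generalize a 11 = a11 at *
  generalize a 12 = a12 at *
  generalize a 13 = a13 at *
  generalize a 14 = a14 at *
  clear hcut ha ha' hm
  have d0 : a0 + a4 + a5 = 2 := by
    clear * - c0 c1 c2 c3 c4 c5 c6 c7 c8 c9 hlt; omega
  have d1 : a0 + a1 + a6 = 2 := by
    clear * - c0 c1 c2 c3 c4 c5 c6 c7 c8 c9 hlt; omega
  have d2 : a1 + a2 + a7 = 2 := by
    clear * - c0 c1 c2 c3 c4 c5 c6 c7 c8 c9 hlt; omega
  have d3 : a2 + a3 + a8 = 2 := by
    clear * - c0 c1 c2 c3 c4 c5 c6 c7 c8 c9 hlt; omega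
  have d4 : a3 + a4 + a9 = 2 := by
    clear * - c0 c1 c2 c3 c4 c5 c6 c7 c8 c9 hlt; omega
  have d5 : a5 + a10 + a14 = 2 := by
    clear * - c0 c1 c2 c3 c4 c5 c6 c7 c8 c9 hlt; omega
  have d6 : a6 + a12 + a13 = 2 := by
    clear * - c0 c1 c2 c3 c4 c5 c6 c7 c8 c9 hlt; omega
  have d7 : a7 + a10 + a11 = 2 := by
    clear * - c0 c1 c2 c3 c4 c5 c6 c7 c8 c9 hlt; omega
  have d8 : a8 + a13 + a14 = 2 := by
    clear * - c0 c1 c2 c3 c4 c5 c6 c7 c8 c9 hlt; omega
  have d9 : a9 + a11 + a12 = 2 := by
    clear * - c0 c1 c2 c3 c4 c5 c6 c7 c8 c9 hlt; omega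
  have b0 : a0 ≤ 1 := by clear * - p0 d0 d1; omega
  have b1 : a1 ≤ 1 := by clear * - p1 d1 d2; omega
  have b2 : a2 ≤ 1 := by clear * - p2 d2 d3; omega
  have b3 : a3 ≤ 1 := by clear * - p3 d3 d4; omega
  have b4 : a4 ≤ 1 := by clear * - p4 d0 d4; omega
  have b5 : a5 ≤ 1 := by clear * - p5 d0 d5; omega
  have b6 : a6 ≤ 1 := by clear * - p6 d1 d6; omega
  have b7 : a7 ≤ 1 := by clear * - p7 d2 d7; omega
  have b8 : a8 ≤ 1 := by clear * - p8 d3 d8; omega
  have b9 : a9 ≤ 1 := by clear * - p9 d4 d9; omega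
  have b10 : a10 ≤ 1 := by clear * - p10 d5 d7; omega
  have b11 : a11 ≤ 1 := by clear * - p11 d7 d9; omega
  have b12 : a12 ≤ 1 := by clear * - p12 d6 d9; omega
  have b13 : a13 ≤ 1 := by clear * - p13 d6 d8; omega
  have b14 : a14 ≤ 1 := by clear * - p14 d5 d8; omega
  exact nl a0 a1 a2 a3 a4 a5 a6 a7 a8 a9 a10 a11 a12 a13 a14 d0 d1 d2 d3 d4 d5 d6 d7 d8 d9
    b0 b1 b2 b3 b4 b5 b6 b7 b8 b9 b10 b11 b12 b13 b14
    q0 q1 q2 q3 q4 q5

/-- Eleven edges of the Petersen graph: a cycle through all vertices but `0`, and two edges at `0`. -/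
def eleven : List (Fin 10 × Fin 10) :=
  [(1, 6), (1, 2), (2, 7), (5, 7), (5, 8), (3, 8), (3, 4), (4, 9), (6, 9), (0, 1), (0, 4)]

/-- The multiplicity function of these eleven edges. -/
def mEleven (e : Sym2 (Fin 10)) : ℕ := if e ∈ eleven.map (fun p => s(p.1, p.2)) then 1 else 0

theorem mEleven_supp : ∀ e, mEleven e ≠ 0 → e ∈ petersen.edgeSet := by
  have h : ∀ p ∈ eleven, petersen.Adj p.1 p.2 := by decide +kernel
  intro e he
  have h1 : e ∈ eleven.map (fun p => s(p.1, p.2)) := by
    by_contra h2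
    exact he (if_neg h2)
  obtain ⟨p, hp, rfl⟩ := List.mem_map.1 h1
  exact (SimpleGraph.mem_edgeSet _).2 (h p hp)

theorem mEleven_sum : ∑ e, mEleven e = 11 := by decide +kernel

set_option maxRecDepth 10000 in
theorem mEleven_val : ∀ e : Fin 15, mEleven s(U e, W e) =
    (![1, 1, 0, 1, 1, 0, 1, 1, 1, 1, 1, 0, 1, 0, 1] : Fin 15 → ℕ) e := by decide +kernel

theorem crossing_count : ∀ b : Fin 10 → Bool, (∃ i, b i = true) → (∃ i, b i = false) →
    2 ≤ ∑ e : Fin 15, if b (U e) ≠ b (W e) then
      (![1, 1, 0, 1, 1, 0, 1, 1, 1, 1, 1, 0, 1, 0, 1] : Fin 15 → ℕ) e else 0 := by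
  decide +kernel

theorem mEleven_spanning : IsTwoEdgeConnectedSpanning petersen mEleven where
  supp := mEleven_supp
  le_two := fun e => by unfold mEleven; split <;> norm_num
  cut := fun S h1 h2 => by
    rw [cut_eq mEleven_supp]
    obtain ⟨i, hi⟩ := h1
    obtain ⟨j, hj⟩ := h2
    rw [Finset.mem_compl] at hj
    have h := crossing_count (fun v => decide (v ∈ S)) ⟨i, by simpa using hi⟩ ⟨j, by simpa using hj⟩
    refine le_of_le_of_eq h (Finset.sum_congr rfl fun e _ => ?_)
    rw [mEleven_val]
    by_cases h1 : U e ∈ S <;> by_cases h2 : W e ∈ S <;> simp [crosses, h1, h2]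

theorem c2_petersen : c2 petersen = 11 := by
  apply le_antisymm
  · exact Nat.sInf_le ⟨mEleven, mEleven_spanning, mEleven_sum⟩
  · obtain ⟨m, hm, hc⟩ := Nat.sInf_mem (s := {c | ∃ m : Sym2 (Fin 10) → ℕ,
      IsTwoEdgeConnectedSpanning petersen m ∧ ∑ e, m e = c}) ⟨11, mEleven, mEleven_spanning,
        mEleven_sum⟩
    have := c2_lower hm
    rw [hc] at this
    exact this


/-! ### The main theorem -/

/-- For the Petersen graph `P` (a connected graph) `c₂(P) = 11` and `f(P) = lim f(n, P) / n = 5`. Hence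
`f(P) < c₂(P) / 2`, and it is not true that `f(G) = c₂(G) / 2` for every connected graph `G`. -/
theorem result :
    petersen.Connected ∧ c2 petersen = 11 ∧
      Tendsto (fun n : ℕ => (eqCost petersen n : ℝ) / n) atTop (𝓝 5) ∧
      ¬ ∀ (V : Type) [Fintype V] [DecidableEq V] (G : SimpleGraph V), G.Connected →
        Tendsto (fun n : ℕ => (eqCost G n : ℝ) / n) atTop (𝓝 ((c2 G : ℝ) / 2)) := by
  refine ⟨petersen_connected, c2_petersen, tendsto_five, fun h => ?_⟩
  have h1 := tendsto_nhds_unique tendsto_five (h (Fin 10) petersen petersen_connected)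
  rw [c2_petersen] at h1
  norm_num at h1

end Pool.Agent.Results.MP_01a55a_lc.PetersenFive
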